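import Pool.Agent.H92.EM.TB
import Pool.Agent.H52.EQ.KB

/-!
Row MKB of board emd_modules (MP_75a732_an): the lower Jacobian.
-/

set_option linter.unusedSectionVars false

namespace Pool.Agent.H88.EM.MKBrow

open MeasureTheory Pool.Agent.H92.EQ Pool.Agent.H92.EM

noncomputable section

variable {m n k : ℕ}

/-- The index `m + j`. -/
def ie (h : m + n = k + 1) (j : Fin n) : Fin (k + 1) := ⟨m + j, by omega⟩

/-- The index `i - m`. -/
def de (h : m + n = k + 1) (i : Fin (k + 1)) (hi : ¬ (i : ℕ) < m) : Fin n := ⟨i - m, by omega⟩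

theorem ie_not (h : m + n = k + 1) (j : Fin n) : ¬ ((ie h j : Fin (k + 1)) : ℕ) < m := by
  simp [ie]

theorem de_ie (h : m + n = k + 1) (j : Fin n) (hj : ¬ ((ie h j : Fin (k + 1)) : ℕ) < m) :
    de h (ie h j) hj = j := by
  ext
  simp [ie, de]

theorem ie_de (h : m + n = k + 1) (i : Fin (k + 1)) (hi : ¬ (i : ℕ) < m) :
    ie h (de h i hi) = i := by
  ext
  simp only [ie, de]
  omega

theorem ie_inj (h : m + n = k + 1) {i j : Fin n} (hij : ie h i = ie h j) : i = j := by
  rw [← de_ie h i (ie_not h i), ← de_ie h j (ie_not h j)]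
  simp only [hij]

/-- The indices `i ≥ m`. -/
def eqv (h : m + n = k + 1) : Fin n ≃ {i : Fin (k + 1) // ¬ (i : ℕ) < m} where
  toFun j := ⟨ie h j, ie_not h j⟩
  invFun i := de h i.1 i.2
  left_inv j := de_ie h j _
  right_inv i := Subtype.ext (ie_de h i.1 i.2)

/-- The substitution `X i := 0`, `i < m`. -/
def gz (h : m + n = k + 1) : Fin (k + 1) → MvPolynomial (Fin n) ℂ := fun i =>
  if hi : (i : ℕ) < m then 0 else MvPolynomial.X (de h i hi)

/-- The point with zeros at `i < m`. -/
def pad (h : m + n = k + 1) (z : Fin n → ℂ) : Fin (k + 1) → ℂ := fun i =>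
  if hi : (i : ℕ) < m then 0 else z (de h i hi)

/-- The restriction to the linear subspace. -/
def rs (h : m + n = k + 1) (P : MvPolynomial (Fin (k + 1)) ℂ) : MvPolynomial (Fin n) ℂ :=
  MvPolynomial.aeval (gz h) P

theorem pad_ie (h : m + n = k + 1) (z : Fin n → ℂ) (j : Fin n) : pad h z (ie h j) = z j := by
  unfold pad
  rw [dif_neg (ie_not h j), de_ie]

theorem pad_lt (h : m + n = k + 1) (z : Fin n → ℂ) {i : Fin (k + 1)} (hi : (i : ℕ) < m) :
    pad h z i = 0 := by
  unfold pad
  rw [dif_pos hi]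

theorem eval_rs (h : m + n = k + 1) (z : Fin n → ℂ) (P : MvPolynomial (Fin (k + 1)) ℂ) :
    MvPolynomial.eval z (rs h P) = MvPolynomial.eval (pad h z) P := by
  unfold rs
  induction P using MvPolynomial.induction_on with
  | C a => simp
  | add p q hp hq => rw [map_add, map_add, map_add, hp, hq]
  | mul_X p i hp =>
    rw [map_mul, map_mul, map_mul, hp, MvPolynomial.aeval_X, MvPolynomial.eval_X]
    congr 1
    unfold gz pad
    by_cases hi : (i : ℕ) < m
    · rw [dif_pos hi, dif_pos hi, map_zero]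
    · rw [dif_neg hi, dif_neg hi, MvPolynomial.eval_X]

theorem pderiv_rs (h : m + n = k + 1) (a : Fin n) (P : MvPolynomial (Fin (k + 1)) ℂ) :
    MvPolynomial.pderiv a (rs h P) = rs h (MvPolynomial.pderiv (ie h a) P) := by
  unfold rs
  induction P using MvPolynomial.induction_on with
  | C c =>
    rw [MvPolynomial.pderiv_C, map_zero, MvPolynomial.aeval_C]
    exact MvPolynomial.pderiv_C
  | add p q hp hq => rw [map_add, map_add, hp, hq, map_add, map_add]
  | mul_X p i hp =>
    rw [map_mul, MvPolynomial.aeval_X, MvPolynomial.pderiv_mul, hp, MvPolynomial.pderiv_mul,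
      map_add, map_mul, map_mul, MvPolynomial.aeval_X]
    congr 2
    by_cases hi : (i : ℕ) < m
    · have hne : i ≠ ie h a := fun hh => ie_not h a (by rw [← hh]; exact hi)
      unfold gz
      rw [dif_pos hi, map_zero, MvPolynomial.pderiv_X_of_ne hne, map_zero]
    · obtain ⟨j, rfl⟩ : ∃ j, i = ie h j := ⟨de h i hi, (ie_de h i hi).symm⟩
      unfold gz
      rw [dif_neg hi, de_ie]
      by_cases hj : j = a
      · rw [hj, MvPolynomial.pderiv_X_self, MvPolynomial.pderiv_X_self, map_one]
      · rw [MvPolynomial.pderiv_X_of_ne hj,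
          MvPolynomial.pderiv_X_of_ne (fun hh => hj (ie_inj h hh)), map_zero]

theorem rs_hom (h : m + n = k + 1) {P : MvPolynomial (Fin (k + 1)) ℂ} {e : ℕ}
    (hP : P.IsHomogeneous e) : (rs h P).IsHomogeneous e := by
  have h1 := hP.aeval (gz h) (n := 1) (fun i => by
    unfold gz
    by_cases hi : (i : ℕ) < m
    · rw [dif_pos hi]
      exact MvPolynomial.isHomogeneous_zero _ _ _
    · rw [dif_neg hi]
      exact MvPolynomial.isHomogeneous_X _ _)
  rw [one_mul] at h1
  exact h1

theorem rs_lowP (h : m + n = k + 1) (F : Fin (k + 1) → MvPolynomial (Fin (k + 1)) ℂ) :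
    rs h (lowP m F) = detP fun i : Fin n => rs h (F (ie h i)) := by
  unfold lowP
  conv_lhs => unfold rs
  rw [AlgHom.map_det]
  rw [Matrix.twoBlockTriangular_det' _ (fun i : Fin (k + 1) => (i : ℕ) < m)]
  · have h1 : (Matrix.toSquareBlockProp ((MvPolynomial.aeval (gz h)).mapMatrix
        (Matrix.of fun i a : Fin (k + 1) => if (i : ℕ) < m then
        (1 : Matrix (Fin (k + 1)) (Fin (k + 1)) (MvPolynomial (Fin (k + 1)) ℂ)) i a
        else MvPolynomial.pderiv a (F i))) fun i : Fin (k + 1) => (i : ℕ) < m) = 1 := by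
      ext1 i a
      rw [Matrix.toSquareBlockProp_def, Matrix.of_apply, AlgHom.mapMatrix_apply,
        Matrix.map_apply, Matrix.of_apply, if_pos i.2, Matrix.one_apply, Matrix.one_apply]
      by_cases hia : i = a
      · rw [if_pos hia, if_pos (by rw [hia]), map_one]
      · rw [if_neg hia, if_neg (fun hh => hia (Subtype.ext hh)), map_zero]
    rw [h1, Matrix.det_one, one_mul]
    rw [← Matrix.det_submatrix_equiv_self (eqv h)]
    unfold detP
    congr 1
    ext1 i a
    rw [Matrix.submatrix_apply, Matrix.toSquareBlockProp_def, Matrix.of_apply,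
      AlgHom.mapMatrix_apply, Matrix.map_apply, Matrix.of_apply, if_neg (eqv h i).2,
      Matrix.of_apply, pderiv_rs]
    rfl
  · intro i hi a ha
    rw [AlgHom.mapMatrix_apply, Matrix.map_apply, Matrix.of_apply, if_pos hi,
      Matrix.one_apply_ne (fun hh => ha (by rw [← hh]; exact hi)), map_zero]

theorem sum_deg (h : m + n = k + 1) (s : ℕ) :
    ∑ i : Fin (k + 1), (if (i : ℕ) < m then 0 else s) = n * s := by
  rw [Finset.sum_ite, Finset.sum_const_zero, zero_add, Finset.sum_const, smul_eq_mul]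
  congr 1
  rw [← Fintype.card_subtype, ← Fintype.card_congr (eqv h), Fintype.card_fin]

theorem lowP_hom (h : m + n = k + 1) {s : ℕ} (F : Fin (k + 1) → MvPolynomial (Fin (k + 1)) ℂ)
    (hF : ∀ i a, (MvPolynomial.pderiv a (F i)).IsHomogeneous s) :
    (lowP m F).IsHomogeneous (n * s) := by
  unfold lowP
  rw [Matrix.det_apply]
  refine MvPolynomial.IsHomogeneous.sum _ _ _ fun σ _ => ?_
  have h0 : (∏ i, (Matrix.of fun i a : Fin (k + 1) => if (i : ℕ) < m then
      (1 : Matrix (Fin (k + 1)) (Fin (k + 1)) (MvPolynomial (Fin (k + 1)) ℂ)) i a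
      else MvPolynomial.pderiv a (F i)) (σ i) i).IsHomogeneous (n * s) := by
    have h1 := MvPolynomial.IsHomogeneous.prod Finset.univ
      (fun i => (Matrix.of fun i a : Fin (k + 1) => if (i : ℕ) < m then
      (1 : Matrix (Fin (k + 1)) (Fin (k + 1)) (MvPolynomial (Fin (k + 1)) ℂ)) i a
      else MvPolynomial.pderiv a (F i)) (σ i) i)
      (fun i => if ((σ i : Fin (k + 1)) : ℕ) < m then 0 else s) (fun i _ => by
        rw [Matrix.of_apply]
        by_cases hi : ((σ i : Fin (k + 1)) : ℕ) < m
        · rw [if_pos hi, if_pos hi, Matrix.one_apply]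
          by_cases hh : σ i = i
          · rw [if_pos hh]
            exact MvPolynomial.isHomogeneous_one _ _
          · rw [if_neg hh]
            exact MvPolynomial.isHomogeneous_zero _ _ _
        · rw [if_neg hi, if_neg hi]
          exact hF _ _)
    rw [Equiv.sum_comp σ (fun i : Fin (k + 1) => if (i : ℕ) < m then 0 else s),
      sum_deg h] at h1
    exact h1
  rcases Int.units_eq_one_or (Equiv.Perm.sign σ) with h1 | h1 <;> rw [h1]
  · rw [one_smul]
    exact h0
  · rw [Units.neg_smul, one_smul]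
    exact h0.neg

/-- MKB: the lower Jacobian. -/
theorem pf_MKB (hKB : T_KB) (hL5 : T_L5) (hL6 : T_L6) (hD : T_D12) : T_MKB := by
  intro m k d F hmk hk hd hF
  have h : m + (k + 1 - m) = k + 1 := by omega
  have hn0 : 0 < k + 1 - m := by omega
  generalize hn : k + 1 - m = n at *
  have hG : IsH d fun i : Fin n => rs h (F (ie h i)) := by
    refine ⟨fun i => rs_hom h (hF.isH.hom _), ?_⟩
    intro z hz
    have h1 : ev F (pad h z) = 0 := by
      funext i
      by_cases hi : (i : ℕ) < m
      · unfold ev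
        rw [hF.diag i hi, map_pow, MvPolynomial.eval_X, pad_lt h z hi, zero_pow (by omega)]
        rfl
      · have h2 := congrFun hz (de h i hi)
        unfold ev at h2 ⊢
        rw [eval_rs, ie_de] at h2
        exact h2
    have h3 := hF.isH.nd _ h1
    funext j
    have h4 := congrFun h3 (ie h j)
    rw [pad_ie] at h4
    exact h4
  obtain ⟨hne, -⟩ := hKB n d _ hn0 hd hG
  have hrs : rs h (lowP m F) ≠ 0 := by
    rw [rs_lowP]
    exact hne
  have hlow0 : lowP m F ≠ 0 := by
    intro h5
    apply hrs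
    rw [h5]
    unfold rs
    exact map_zero _
  have hhom : (lowP m F).IsHomogeneous (n * (d - 1)) :=
    lowP_hom h F fun i a => (hF.isH.hom i).pderiv
  have hM : 1 ≤ n * (d - 1) := Nat.mul_pos hn0 (by omega)
  have heval : ∀ z, MvPolynomial.eval z (lowP m F) = (lowM m (jac F z)).det := by
    intro z
    unfold lowP
    rw [RingHom.map_det]
    congr 1
    ext1 i a
    rw [RingHom.mapMatrix_apply, Matrix.map_apply, Matrix.of_apply]
    unfold lowM
    by_cases hi : (i : ℕ) < m
    · rw [if_pos hi, if_pos hi, Matrix.one_apply, Matrix.one_apply]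
      by_cases hh : i = a
      · rw [if_pos hh, if_pos hh, map_one]
      · rw [if_neg hh, if_neg hh, map_zero]
    · rw [if_neg hi, if_neg hi]
      rfl
  refine ⟨hlow0, hhom, hM, ?_, heval, ?_, ?_, ?_⟩
  · rintro b hb ⟨Q, hQ⟩
    apply hrs
    rw [hQ]
    unfold rs
    rw [map_mul, MvPolynomial.aeval_X]
    unfold gz
    rw [dif_pos hb, zero_mul]
  · obtain ⟨B, hB0, hB⟩ := (hL6 (k + 1)).1 (nv (lowP m F) (n * (d - 1))) (by
        unfold nv
        refine ContinuousOn.div ?_ (Pool.Agent.H52.EQ.continuous_nrm'.pow _).continuousOn ?_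
        · exact (MvPolynomial.continuous_eval (lowP m F)).norm.continuousOn
        · intro z hz
          exact pow_ne_zero _ (Pool.Agent.H52.EQ.nrm_pos' hz).ne') (by
        intro r z hr hz
        unfold nv
        rw [Pool.Agent.H52.EQ.eval_smul' hhom, Pool.Agent.H52.EQ.nrm_smul' hr, norm_mul, norm_pow,
          Complex.norm_real, Real.norm_eq_abs, abs_of_pos hr, mul_pow]
        exact mul_div_mul_left _ _ (pow_ne_zero _ hr.ne'))
    refine ⟨max B 1, le_max_right _ _, fun z hz => ?_⟩
    exact ((le_abs_self _).trans (hB z hz)).trans (le_max_left _ _)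
  · intro ε hε
    refine ⟨hL5 (k + 1) (n * (d - 1)) (lowP m F) ε hM hhom hε, ?_⟩
    intro z hz
    have hs := Pool.Agent.H52.EQ.nsq_pos' hz
    set M := n * (d - 1) with hMdef
    have hMR : (M : ℝ) ≠ 0 := by
      have : (0 : ℝ) < M := by exact_mod_cast hM
      exact this.ne'
    have hnv : nv (lowP m F) M z ^ 2 = ‖MvPolynomial.eval z (lowP m F)‖ ^ 2 / nsq z ^ M := by
      unfold nv
      rw [div_pow, ← pow_mul, mul_comm M 2, pow_mul, Pool.Agent.H52.EQ.nrm_sq']
    have h1 : nv (lowP m F) M z ^ 2 + ε ^ 2 =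
        (‖MvPolynomial.eval z (lowP m F)‖ ^ 2 + ε ^ 2 * nsq z ^ M) / nsq z ^ M := by
      rw [hnv]
      field_simp
    rw [h1, Real.log_div (by positivity) (by positivity), Real.log_pow]
    unfold we ell
    field_simp
  · intro l
    refine ⟨(hD (k + 1) d F (by omega) hF.isH 0 l).1, fun i hi => ?_⟩
    induction l with
    | zero => simp [iter]
    | succ l ih =>
      change MvPolynomial.bind₁ (iter F l) (F i) = _
      rw [hF.diag i hi, map_pow, MvPolynomial.bind₁_X_right, ih, ← pow_mul, pow_succ]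

end

end Pool.Agent.H88.EM.MKBrow
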