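import Pool.Agent.H92.EM.TC

/-!
Row MPG of board emd_modules (MP_75a732_an): the estimate for the closed forms, from EPG by a
transposition of the coordinates.
-/

namespace Pool.Agent.H88.EM

open scoped BigOperators ComplexConjugate ContDiff ComplexOrder
open MeasureTheory Pool.Agent.H92.EQ

noncomputable section

set_option linter.unusedSectionVars false

section alg

variable {ι : Type} [Fintype ι] [DecidableEq ι]

/-- Reindexing in `mixD`. -/
theorem mixD_perm {p m : ℕ} (g : Equiv.Perm ι) (S : (Fin p → ι) → (Fin p → ι) → ℂ)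
    (H : Fin m → Matrix ι ι ℂ) :
    mixD (fun I J => S (fun l => g (I l)) (fun l => g (J l)))
      (fun j => (fun a c => H j (g a) (g c) : Matrix ι ι ℂ)) = mixD S H := by
  unfold mixD
  refine Fintype.sum_equiv (Equiv.equivCongr (Equiv.refl _) g) _ _ fun e => ?_
  refine Fintype.sum_equiv (Equiv.equivCongr (Equiv.refl _) g) _ _ fun e' => ?_
  have h : ((Equiv.equivCongr (Equiv.refl (Fin p ⊕ Fin m)) g) e).trans
      ((Equiv.equivCongr (Equiv.refl (Fin p ⊕ Fin m)) g) e').symm = e.trans e'.symm := by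
    ext x
    simp [Equiv.equivCongr]
  rw [h]
  rfl

/-- The map `z ↦ z ∘ g`. -/
def sg (g : Equiv.Perm ι) (z : ι → ℂ) : ι → ℂ := fun i => z (g i)

/-- The polynomial map `z ↦ z ∘ g`. -/
def sG (g : Equiv.Perm ι) : ι → MvPolynomial ι ℂ := fun i => MvPolynomial.X (g i)

theorem ev_sG (g : Equiv.Perm ι) (z : ι → ℂ) : ev (sG g) z = sg g z := by
  funext i
  simp [ev, sG, sg]

theorem jac_sG (g : Equiv.Perm ι) (z : ι → ℂ) (i a : ι) :
    jac (sG g) z i a = if a = g i then 1 else 0 := by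
  unfold jac sG
  rw [MvPolynomial.pderiv_X]
  by_cases h : a = g i
  · subst h
    simp
  · rw [if_neg h, Pi.single_eq_of_ne (Ne.symm h)]
    simp

theorem nsq_sg (g : Equiv.Perm ι) (z : ι → ℂ) : nsq (sg g z) = nsq z := by
  unfold nsq sg
  exact Equiv.sum_comp g (fun i => ‖z i‖ ^ 2)

theorem ell_sg (g : Equiv.Perm ι) (z : ι → ℂ) : ell (sg g z) = ell z := by
  unfold ell
  rw [nsq_sg]

theorem sg_ne (g : Equiv.Perm ι) {z : ι → ℂ} (hz : z ≠ 0) : sg g z ≠ 0 := by
  intro h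
  apply hz
  funext i
  have := congrFun h (g.symm i)
  simpa [sg] using this

/-- The complex Hessian of `f ∘ sg g`. -/
theorem hessR_sg (w4 : T_W4) (g : Equiv.Perm ι) (f : (ι → ℂ) → ℝ) (z : ι → ℂ)
    (hf : ContDiffAt ℝ 2 f (sg g z)) (a c : ι) :
    hessR (fun w => f (sg g w)) z a c = hessR f (sg g z) (g.symm a) (g.symm c) := by
  have hf' : ContDiffAt ℝ 2 (fun w => (f w : ℂ)) (ev (sG g) z) := by
    rw [ev_sG]
    exact Complex.ofRealCLM.contDiff.contDiffAt.comp _ hf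
  have h := w4 ι ι (sG g) (fun w => (f w : ℂ)) z hf' a c
  have h1 : hessR (fun w => f (sg g w)) z a c =
      hess (fun w => ((fun w => (f w : ℂ)) (ev (sG g) w))) z a c := by
    unfold hessR
    congr 1
    funext w
    simp only [ev_sG]
  rw [h1, h]
  simp only [jac_sG, ev_sG]
  rw [Finset.sum_eq_single (g.symm a)]
  · rw [Finset.sum_eq_single (g.symm c)]
    · simp [hessR]
    · intro j _ hj
      have : c ≠ g j := fun h => hj (by rw [h]; simp)
      simp [this]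
    · simp
  · intro i _ hi
    have : a ≠ g i := fun h => hi (by rw [h]; simp)
    simp [this]
  · simp

/-- The radial form. -/
theorem Rad_sg (g : Equiv.Perm ι) (z : ι → ℂ) (a c : ι) :
    Rad z a c = Rad (sg g z) (g.symm a) (g.symm c) := by
  unfold Rad
  rw [nsq_sg]
  simp [sg]

theorem nrm_sg (g : Equiv.Perm ι) (z : ι → ℂ) : nrm (sg g z) = nrm z := by
  unfold nrm
  rw [nsq_sg]

theorem sg_mp (g : Equiv.Perm ι) :
    ∃ e : (ι → ℂ) ≃ᵐ (ι → ℂ), (∀ z, e z = sg g z) ∧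
      MeasurePreserving e (volume : Measure (ι → ℂ)) volume := by
  refine ⟨MeasurableEquiv.piCongrLeft (fun _ => ℂ) g.symm, ?_,
    volume_measurePreserving_piCongrLeft (fun _ => ℂ) g.symm⟩
  intro z
  funext i
  have h := Equiv.piCongrLeft_apply_apply (fun _ : ι => ℂ) g.symm z (g i)
  simpa [sg, MeasurableEquiv.coe_piCongrLeft] using h

end alg

section om

variable {N : ℕ}

theorem om_sg (w4 : T_W4) (w9 : T_W9) (g : Equiv.Perm (Fin N)) :
    ∀ (s : ℕ) (z : Fin N → ℂ), z ≠ 0 →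
      om N s z = fun I J => om N s (sg g z) (fun l => g.symm (I l)) (fun l => g.symm (J l)) := by
  intro s
  induction s with
  | zero => intro z _; rfl
  | succ s ih =>
    intro z hz
    have hell : hessR ell z = fun a c => hessR ell (sg g z) (g.symm a) (g.symm c) := by
      have hc : ContDiffAt ℝ 2 (ell : (Fin N → ℂ) → ℝ) (sg g z) :=
        (((w9 (Fin N)).1 _ (sg_ne g hz)).contDiffAt
          (isOpen_compl_singleton.mem_nhds (sg_ne g hz))).of_le (by norm_cast)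
      funext a c
      rw [← hessR_sg w4 g ell z hc a c]
      have he : (ell : (Fin N → ℂ) → ℝ) = fun w => ell (sg g w) :=
        funext fun w => (ell_sg g w).symm
      rw [← he]
    change wedge (om N s z) (hessR ell z) = _
    rw [ih z hz, hell]
    rfl

end om

section main

variable {k : ℕ}

theorem nsq_cd {ι : Type} [Fintype ι] : ContDiff ℝ ∞ (nsq : (ι → ℂ) → ℝ) := by
  unfold nsq
  refine ContDiff.sum fun i _ => ?_
  exact (contDiff_apply ℝ ℂ i).norm_sq ℝ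

theorem nsq_po {ι : Type} [Fintype ι] {x : ι → ℂ} (hx : x ≠ 0) : 0 < nsq x := by
  obtain ⟨i, hi⟩ := Function.ne_iff.1 hx
  refine lt_of_lt_of_le (b := ‖x i‖ ^ 2) (pow_pos (norm_pos_iff.2 hi) 2) ?_
  exact Finset.single_le_sum (f := fun i => ‖x i‖ ^ 2) (fun i _ => by positivity)
    (Finset.mem_univ i)

theorem wH_cd {δ : ℝ} (hδ : 0 < δ) {z : Fin (k + 1) → ℂ} (hz : z ≠ 0) :
    ContDiffAt ℝ 2 (Pool.Agent.H92.EHD.wH (k := k) δ) z := by
  unfold Pool.Agent.H92.EHD.wH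
  have h1 : ContDiffAt ℝ 2 (fun z : Fin (k + 1) → ℂ => ‖z 0‖ ^ 2 + δ ^ 2 * nsq z) z := by
    have h2 : ContDiff ℝ 2 (fun z : Fin (k + 1) → ℂ => ‖z 0‖ ^ 2) :=
      (contDiff_apply ℝ ℂ (0 : Fin (k + 1))).norm_sq ℝ
    have h3 : ContDiff ℝ 2 (nsq : (Fin (k + 1) → ℂ) → ℝ) :=
      nsq_cd.of_le (by norm_cast)
    exact (h2.add (contDiff_const.mul h3)).contDiffAt
  have h4 : ‖z 0‖ ^ 2 + δ ^ 2 * nsq z ≠ 0 := by
    have := nsq_po hz
    positivity
  exact contDiffAt_const.mul (h1.log h4)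

theorem TF_sg (w4 : T_W4) (w9 : T_W9) (s : ℕ) (b : Fin (k + 1)) {δ : ℝ} (hδ : 0 < δ)
    {z : Fin (k + 1) → ℂ} (hz : z ≠ 0) :
    Pool.Agent.H92.EM.TF s b δ z = fun I J =>
      wedge (om (k + 1) s (sg (Equiv.swap 0 b) z))
        (hessR (Pool.Agent.H92.EHD.wH δ) (sg (Equiv.swap 0 b) z))
        (fun l => (Equiv.swap 0 b).symm (I l)) (fun l => (Equiv.swap 0 b).symm (J l)) := by
  have hw : hessR (Pool.Agent.H92.EM.wH b δ) z = fun a c =>
      hessR (Pool.Agent.H92.EHD.wH δ) (sg (Equiv.swap 0 b) z) ((Equiv.swap 0 b).symm a)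
        ((Equiv.swap 0 b).symm c) := by
    funext a c
    rw [← hessR_sg w4 (Equiv.swap 0 b) _ z (wH_cd hδ (sg_ne _ hz)) a c]
    have he : Pool.Agent.H92.EM.wH b δ =
        fun w : Fin (k + 1) → ℂ => Pool.Agent.H92.EHD.wH δ (sg (Equiv.swap 0 b) w) := by
      funext w
      unfold Pool.Agent.H92.EM.wH Pool.Agent.H92.EHD.wH
      rw [nsq_sg]
      simp [sg]
    rw [he]
  unfold Pool.Agent.H92.EM.TF
  rw [om_sg w4 w9 (Equiv.swap 0 b) s z hz, hw]
  rfl

theorem snoc0 {N : ℕ} (u : Fin 0 → (Fin N → ℂ) → ℝ) (z : Fin N → ℂ)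
    (A : Matrix (Fin N) (Fin N) ℂ) :
    Fin.snoc (α := fun _ => Matrix (Fin N) (Fin N) ℂ) (fun j => hessR (u j) z) A =
      fun _ : Fin 1 => A := by
  funext j
  have : j = Fin.last 0 := Subsingleton.elim (α := Fin 1) _ _
  rw [this, Fin.snoc_last]

/-- MPG: the estimate for the closed forms. -/
theorem pf_MPG (hEPG : Pool.Agent.H92.EHD.T_EPG) (w4 : T_W4) (w9 : T_W9) :
    Pool.Agent.H92.EM.T_MPG := by
  intro k M b P hP hM hX
  have hP' : (MvPolynomial.rename (Equiv.swap 0 b).symm P).IsHomogeneous M :=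
    hP.rename_isHomogeneous
  have hX' : ¬ MvPolynomial.X 0 ∣ MvPolynomial.rename (Equiv.swap 0 b).symm P := by
    intro h
    apply hX
    have h2 := map_dvd (MvPolynomial.rename (Equiv.swap 0 b) :
      MvPolynomial (Fin (k + 1 + 1)) ℂ →ₐ[ℂ] MvPolynomial (Fin (k + 1 + 1)) ℂ) h
    rw [MvPolynomial.rename_X, MvPolynomial.rename_rename] at h2
    have h3 : (⇑(Equiv.swap 0 b) ∘ ⇑(Equiv.swap 0 b).symm) =
        (id : Fin (k + 1 + 1) → Fin (k + 1 + 1)) := by
      funext i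
      simp
    rw [h3, MvPolynomial.rename_id] at h2
    simpa using h2
  obtain ⟨C, hC⟩ := hEPG k M _ hP' hM hX'
  refine ⟨C, fun δ r hδ hδ1 hr hr1 => ?_⟩
  refine le_trans (le_of_eq ?_) (hC δ r hδ hδ1 hr hr1)
  obtain ⟨e, he, hmp⟩ := sg_mp (Equiv.swap (0 : Fin (k + 1 + 1)) b)
  have hset : {z : Fin (k + 1 + 1) → ℂ | 0 ≤ ell z ∧ ell z < 1} =
      e ⁻¹' {z : Fin (k + 1 + 1) → ℂ | 0 ≤ ell z ∧ ell z < 1} := by
    ext z
    simp only [Set.mem_ofPred_eq, Set.mem_preimage, he, ell_sg]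
  unfold pair Iint
  conv_lhs => rw [hset]
  refine Eq.trans ?_ (hmp.setIntegral_preimage_emb e.measurableEmbedding (E := ℝ) _ _)
  refine integral_congr_ae ?_
  have h0 : ∀ᵐ z : Fin (k + 1 + 1) → ℂ, z ≠ 0 := by
    rw [ae_iff]
    simp
  refine (ae_restrict_of_ae h0).mono fun z hz => ?_
  simp only [he]
  have hnv : nv P M z = nv (MvPolynomial.rename (Equiv.swap 0 b).symm P) M
      (sg (Equiv.swap 0 b) z) := by
    unfold nv
    have h5 : sg (Equiv.swap 0 b) z ∘ (Equiv.swap 0 b).symm = z := by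
      funext i
      simp [sg]
    rw [nrm_sg, MvPolynomial.eval_rename, h5]
  rw [hnv]
  congr 1
  unfold Q
  congr 1
  rw [snoc0, snoc0, TF_sg w4 w9 k b hδ hz]
  have hR : Rad z = fun a c => Rad (sg (Equiv.swap 0 b) z) ((Equiv.swap 0 b).symm a)
      ((Equiv.swap 0 b).symm c) := by
    funext a c
    exact Rad_sg _ z a c
  rw [hR]
  exact mixD_perm (Equiv.swap 0 b).symm (Pool.Agent.H92.EHD.tauH δ (sg (Equiv.swap 0 b) z))
    (fun _ : Fin 1 => Rad (sg (Equiv.swap 0 b) z))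

end main

end

end Pool.Agent.H88.EM
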